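import Pool.Agent.Q287.NT.Fin
import Pool.Agent.Q287.NT.Key
import Pool.Agent.Q287.NT.Rec
import Pool.Agent.Q287.NT.Low
import Pool.Agent.Q272.NT.Init
import Pool.Agent.Q272.NT.Ana
import Pool.Agent.Q53.NT.A
import Pool.Agent.Q53.NT.C
import Pool.Agent.Q179.NT.Br
import Pool.Agent.Q179.NT.Meas

/-!
# The number of uncovered vertices of the random nearest neighbour tree grows polynomially

The definitions are in `Pool/Agent/Q287/NT/Base.lean`: `Tor d = (ℝ/ℤ)^d` with the torus metric `td`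
(root of the sum of the squared circle distances) and its uniform distribution `volume`;
`parent x i` is the nearest earlier vertex of vertex `i` (the first one in case of ties), vertices
being numbered `0, 1, …`; `Adj x n` is adjacency in the tree `T_n` on the vertices `0, …, n - 1`;
`Forb x p q` is the forbidden region of the edge `{p, q}`; `CovBy x n v p q` says that `v` is
covered by the edge `{p, q}` of `T_n`; `Cov x n v` that `v` is, or descends from, a vertex covered
by some edge of `T_n`; `Unc x n` is the set of uncovered vertices of `T_n`.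
-/

set_option autoImplicit false

universe u

namespace Pool.Agent.Results.MP_959362_pr.PolynomiallyManyUncovered

open MeasureTheory ProbabilityTheory Q287.NT

/-- For every sufficiently large dimension `d` there is `c > 0` such that for independent uniform
points `X 0, X 1, …` of the torus `T^d` the expected number of uncovered vertices of `T_n` is at
least `c n^(1/(3d))` for all `n ≥ 1`. In particular it is not bounded by `C (log n)^k` for any
`C, k`, and for all `C, k` there is `n ≥ 2` with `P(|U_n| ≤ C (log n)^k) < 1 - 1/n`. -/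
theorem result : ∃ d₀ : ℕ, ∀ d ≥ d₀, ∃ c : ℝ, 0 < c ∧
    ∀ (Ω : Type u) [MeasurableSpace Ω] (P : Measure Ω) [IsProbabilityMeasure P]
      (X : ℕ → Ω → Tor d), (∀ i, Measurable (X i)) → iIndepFun X P →
      (∀ i, P.map (X i) = volume) →
      (∀ n : ℕ, 1 ≤ n →
        c * (n : ℝ) ^ (1 / (3 * d : ℝ)) ≤ ∫ ω, ((Unc (fun i => X i ω) n).ncard : ℝ) ∂P) ∧
      (∀ C k : ℝ, ∃ n : ℕ, 2 ≤ n ∧
        C * Real.log n ^ k < ∫ ω, ((Unc (fun i => X i ω) n).ncard : ℝ) ∂P) ∧
      (∀ C k : ℝ, ∃ n : ℕ, 2 ≤ n ∧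
        P.real {ω | ((Unc (fun i => X i ω) n).ncard : ℝ) ≤ C * Real.log n ^ k} < 1 - 1 / n) := by
  have hLIFT := Pool.Agent.Q272.NT.t_LIFT
  have hEUC := Pool.Agent.Q272.NT.t_EUC hLIFT
  have hSC := Pool.Agent.Q272.NT.t_SCALE hEUC
  have hSPH := Pool.Agent.Q272.NT.t_SPH hLIFT
  have hLENS := Pool.Agent.Q272.NT.t_LENS hLIFT hEUC hSC
  have hUNI := Pool.Agent.Q272.NT.t_UNI hSPH
  have hI1 := Pool.Agent.Q53.NT.t_I1 hSC
  have hE2 := Pool.Agent.Q53.NT.t_E2 hSC Pool.Agent.Q53.NT.t_EXPU hUNI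
  have hRES := Pool.Agent.Q53.NT.t_RES
  have hBOX := Pool.Agent.Q53.NT.t_BOX
  have hGLUE := Pool.Agent.Q53.NT.t_GLUE
  have hKEY := t_KEY hSC hLENS hI1 hE2 (Pool.Agent.Q53.NT.t_PA hRES) (Pool.Agent.Q53.NT.t_PB hRES)
    (Pool.Agent.Q53.NT.t_PC hRES hBOX) (Pool.Agent.Q53.NT.t_PD hRES hBOX)
  have hM := Q179.NT.t_MEAS
  have hMU := Q179.NT.t_MEASU
  have hBR := Q179.NT.t_BR hSC hKEY t_STEP hM
  have hREC := t_REC hGLUE t_LOC hM
  have hTIME := Pool.Agent.Q272.NT.t_TIME hSC
  have hLOW := t_LOW hTIME t_UNC hM hMU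
  have hINIT := Pool.Agent.Q272.NT.t_INIT
    (Pool.Agent.Q272.NT.t_WALK Pool.Agent.Q272.NT.t_PATH) t_PAR
  exact final t_UNC t_PAR hMU hBR hREC hLOW hINIT Pool.Agent.Q272.NT.t_POW
    Pool.Agent.Q272.NT.t_EVOK

end Pool.Agent.Results.MP_959362_pr.PolynomiallyManyUncovered
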